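import Mathlib

namespace Pool.Agent.Lib.MP_0d3379_co

/-- the pairs of `K_{d,d}` that are kept: the first `p` diagonal pairs are deleted -/
def ok {d : ℕ} (p : ℕ) (i j : Fin d) : Prop := ¬ (i = j ∧ i.val < p)

instance {d : ℕ} (p : ℕ) (i j : Fin d) : Decidable (ok p i j) := by
  unfold ok; infer_instance

theorem card_ok (d p : ℕ) (hpd : p ≤ d) :
    ((Finset.univ : Finset (Fin d × Fin d)).filter (fun q => ok p q.1 q.2)).card + p = d * d := by
  classical
  have h1 := Finset.card_filter_add_card_filter_not (s := (Finset.univ : Finset (Fin d × Fin d)))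
    (fun q => ok p q.1 q.2)
  have h2 : ((Finset.univ : Finset (Fin d × Fin d)).filter (fun q => ¬ ok p q.1 q.2)).card = p := by
    have : ((Finset.univ : Finset (Fin d × Fin d)).filter (fun q => ¬ ok p q.1 q.2)) =
        ((Finset.univ : Finset (Fin p)).image (fun i => ((Fin.castLE hpd i, Fin.castLE hpd i) : Fin d × Fin d))) := by
      ext ⟨a, b⟩
      simp only [ok, not_not, Finset.mem_filter, Finset.mem_univ, true_and, Finset.mem_image,
        Prod.mk.injEq]
      constructor
      · rintro ⟨rfl, h⟩
        exact ⟨⟨a.val, h⟩, by ext; simp, by ext; simp⟩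
      · rintro ⟨i, rfl, rfl⟩
        exact ⟨rfl, by simp⟩
    rw [this, Finset.card_image_of_injective]
    · simp
    · intro i j h
      simp only [Prod.mk.injEq] at h
      have := h.1
      ext
      simpa [Fin.ext_iff] using this
  rw [h2] at h1
  simpa using h1

theorem core (d p : ℕ) (hp : 3 ≤ p) (hpd : p ≤ d) (β : Fin d → Fin d → Fin (d + 4))
    (x y : Fin d → Fin (d + 4))
    (hrow : ∀ i j j', ok p i j → ok p i j' → β i j = β i j' → j = j')
    (hcol : ∀ i i' j, ok p i j → ok p i' j → β i j = β i' j → i = i')
    (hβ : ∀ i j, ok p i j → (β i j).val ≠ 2 ∧ (β i j).val ≠ 3 ∧ (β i j).val ≠ 4 ∧ (β i j).val ≠ 5)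
    (hx : ∀ i : Fin d, i.val < p → (x i).val ≠ 2 ∧ (x i).val ≠ 3)
    (hy : ∀ i : Fin d, i.val < p → (y i).val ≠ 2 ∧ (y i).val ≠ 3)
    (hxinj : ∀ i j : Fin d, i.val < p → j.val < p → x i = x j → i = j)
    (hyinj : ∀ i j : Fin d, i.val < p → j.val < p → y i = y j → i = j)
    (hxy : ∀ i j : Fin d, i.val < p → j.val < p → x i ≠ y j)
    (hxβ : ∀ i j : Fin d, i.val < p → ok p i j → x i ≠ β i j)
    (hyβ : ∀ i j : Fin d, j.val < p → ok p i j → y j ≠ β i j) : False := by
  classical
  set E : Finset (Fin d × Fin d) := Finset.univ.filter (fun q => ok p q.1 q.2) with hE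
  have hEcard : E.card + p = d * d := card_ok d p hpd
  -- the four special colors
  set T : Finset (Fin (d + 4)) := Finset.univ.filter
    (fun c => c.val = 2 ∨ c.val = 3 ∨ c.val = 4 ∨ c.val = 5) with hT
  set T' : Finset (Fin (d + 4)) := Finset.univ.filter (fun c => c.val = 4 ∨ c.val = 5) with hT'
  have hTcard : T.card = 4 := by
    have : T = {⟨2, by omega⟩, ⟨3, by omega⟩, ⟨4, by omega⟩, ⟨5, by omega⟩} := by
      ext c
      simp only [hT, Finset.mem_filter, Finset.mem_univ, true_and, Finset.mem_insert,
        Finset.mem_singleton, Fin.ext_iff]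
    rw [this]
    rw [Finset.card_insert_of_notMem, Finset.card_insert_of_notMem, Finset.card_insert_of_notMem,
      Finset.card_singleton] <;> simp [Fin.ext_iff]
  have hT'card : T'.card = 2 := by
    have : T' = {⟨4, by omega⟩, ⟨5, by omega⟩} := by
      ext c
      simp only [hT', Finset.mem_filter, Finset.mem_univ, true_and, Finset.mem_insert,
        Finset.mem_singleton, Fin.ext_iff]
    rw [this]
    rw [Finset.card_insert_of_notMem, Finset.card_singleton]
    simp [Fin.ext_iff]
  set P : Finset (Fin d) := Finset.univ.filter (fun i => i.val < p) with hP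
  have hPcard : P.card = p := by
    have : P = (Finset.univ : Finset (Fin p)).image (Fin.castLE hpd) := by
      ext a
      simp only [hP, Finset.mem_filter, Finset.mem_univ, true_and, Finset.mem_image]
      constructor
      · intro h
        exact ⟨⟨a.val, h⟩, by ext; simp⟩
      · rintro ⟨i, rfl⟩
        simp
    rw [this, Finset.card_image_of_injective _ (Fin.castLE_injective hpd)]
    simp
  set W : Finset (Fin (d + 4)) := P.image x ∪ P.image y with hW
  have hWcard : W.card = 2 * p := by
    rw [hW, Finset.card_union_of_disjoint, Finset.card_image_of_injOn, Finset.card_image_of_injOn,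
      hPcard]
    · ring
    · intro i hi j hj h
      simp only [hP, Finset.coe_filter, Finset.mem_univ, true_and, Set.mem_ofPred_eq] at hi hj
      exact hyinj i j hi hj h
    · intro i hi j hj h
      simp only [hP, Finset.coe_filter, Finset.mem_univ, true_and, Set.mem_ofPred_eq] at hi hj
      exact hxinj i j hi hj h
    · rw [Finset.disjoint_left]
      intro c hc hc'
      simp only [hP, Finset.mem_image, Finset.mem_filter, Finset.mem_univ, true_and] at hc hc'
      obtain ⟨i, hi, rfl⟩ := hc
      obtain ⟨j, hj, h⟩ := hc'
      exact hxy i j hi hj h.symm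
  -- W minus T has at least 2p-2 elements
  have hWT : 2 * p ≤ (W \ T).card + 2 := by
    have h1 : W ⊆ (W \ T) ∪ T' := by
      intro c hc
      rw [Finset.mem_union, Finset.mem_sdiff]
      by_cases hcT : c ∈ T
      · right
        have h23 : c.val ≠ 2 ∧ c.val ≠ 3 := by
          simp only [hW, hP, Finset.mem_union, Finset.mem_image, Finset.mem_filter,
            Finset.mem_univ, true_and] at hc
          rcases hc with ⟨i, hi, rfl⟩ | ⟨i, hi, rfl⟩
          · exact hx i hi
          · exact hy i hi
        simp only [hT, Finset.mem_filter, Finset.mem_univ, true_and] at hcT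
        simp only [hT', Finset.mem_filter, Finset.mem_univ, true_and]
        omega
      · left
        exact ⟨hc, hcT⟩
    calc 2 * p = W.card := hWcard.symm
      _ ≤ ((W \ T) ∪ T').card := Finset.card_le_card h1
      _ ≤ (W \ T).card + T'.card := Finset.card_union_le _ _
      _ = (W \ T).card + 2 := by rw [hT'card]
  -- fibres
  let F : Fin (d + 4) → Finset (Fin d × Fin d) := fun c => E.filter (fun q => β q.1 q.2 = c)
  have hsum : E.card = ∑ c, (F c).card :=
    Finset.card_eq_sum_card_fiberwise (fun q _ => Finset.mem_coe.mpr (Finset.mem_univ (β q.1 q.2)))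
  have hF0 : ∀ c ∈ T, (F c).card = 0 := by
    intro c hc
    rw [Finset.card_eq_zero]
    apply Finset.eq_empty_of_forall_notMem
    rintro ⟨i, j⟩ h
    simp only [F, hE, Finset.mem_filter, Finset.mem_univ, true_and] at h
    have := hβ i j h.1
    simp only [hT, Finset.mem_filter, Finset.mem_univ, true_and] at hc
    rw [h.2] at this
    omega
  have hFd : ∀ c, (F c).card ≤ d := by
    intro c
    have : (F c).card ≤ (Finset.univ : Finset (Fin d)).card := by
      apply Finset.card_le_card_of_injOn (fun q => q.1)
      · intro q _; simp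
      · rintro ⟨i, j⟩ h ⟨i', j'⟩ h' hii
        simp only [F, hE, Finset.coe_filter, Finset.mem_filter, Finset.mem_univ, true_and, Set.mem_ofPred_eq] at h h'
        simp only at hii
        subst hii
        rw [hrow i j j' h.1 h'.1 (h.2.trans h'.2.symm)]
    simpa using this
  have hFd1 : ∀ c ∈ W, (F c).card + 1 ≤ d := by
    intro c hc
    simp only [hW, hP, Finset.mem_union, Finset.mem_image, Finset.mem_filter,
            Finset.mem_univ, true_and] at hc
    rcases hc with ⟨k, hk, rfl⟩ | ⟨k, hk, rfl⟩
    · have : (F (x k)).card ≤ ((Finset.univ : Finset (Fin d)).erase k).card := by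
        apply Finset.card_le_card_of_injOn (fun q => q.1)
        · rintro ⟨i, j⟩ h
          simp only [F, hE, Finset.coe_filter, Finset.mem_filter, Finset.mem_univ, true_and, Set.mem_ofPred_eq] at h
          simp only [Finset.coe_erase, Set.mem_sdiff, Finset.mem_coe, Finset.mem_univ, Set.mem_singleton_iff, true_and]
          rintro rfl
          exact hxβ i j hk h.1 h.2.symm
        · rintro ⟨i, j⟩ h ⟨i', j'⟩ h' hii
          simp only [F, hE, Finset.coe_filter, Finset.mem_filter, Finset.mem_univ, true_and, Set.mem_ofPred_eq] at h h'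
          simp only at hii
          subst hii
          rw [hrow i j j' h.1 h'.1 (h.2.trans h'.2.symm)]
      rw [Finset.card_erase_of_mem (Finset.mem_univ _), Finset.card_univ, Fintype.card_fin] at this
      have := k.isLt
      omega
    · have : (F (y k)).card ≤ ((Finset.univ : Finset (Fin d)).erase k).card := by
        apply Finset.card_le_card_of_injOn (fun q => q.2)
        · rintro ⟨i, j⟩ h
          simp only [F, hE, Finset.coe_filter, Finset.mem_filter, Finset.mem_univ, true_and, Set.mem_ofPred_eq] at h
          simp only [Finset.coe_erase, Set.mem_sdiff, Finset.mem_coe, Finset.mem_univ, Set.mem_singleton_iff, true_and]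
          rintro rfl
          exact hyβ i j hk h.1 h.2.symm
        · rintro ⟨i, j⟩ h ⟨i', j'⟩ h' hjj
          simp only [F, hE, Finset.coe_filter, Finset.mem_filter, Finset.mem_univ, true_and, Set.mem_ofPred_eq] at h h'
          simp only at hjj
          subst hjj
          rw [hcol i i' j h.1 h'.1 (h.2.trans h'.2.symm)]
      rw [Finset.card_erase_of_mem (Finset.mem_univ _), Finset.card_univ, Fintype.card_fin] at this
      have := k.isLt
      omega
  have hsplit : ∑ c, (F c).card = ∑ c ∈ Finset.univ \ T, (F c).card := by
    symm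
    apply Finset.sum_subset (Finset.subset_univ _)
    intro c _ hc
    apply hF0
    simpa using hc
  have hbound : ∑ c ∈ Finset.univ \ T, (F c).card + (W \ T).card ≤ d * d := by
    have h1 : (W \ T).card = ∑ c ∈ Finset.univ \ T, (if c ∈ W then 1 else 0) := by
      rw [Finset.sum_ite, Finset.sum_const_zero, add_zero, Finset.sum_const, smul_eq_mul, mul_one]
      congr 1
      ext c
      simp [and_comm]
    rw [h1, ← Finset.sum_add_distrib]
    calc ∑ c ∈ Finset.univ \ T, ((F c).card + if c ∈ W then 1 else 0)
        ≤ ∑ c ∈ Finset.univ \ T, d := by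
          apply Finset.sum_le_sum
          intro c _
          by_cases hc : c ∈ W
          · simpa [hc] using hFd1 c hc
          · simpa [hc] using hFd c
      _ = (Finset.univ \ T).card * d := by rw [Finset.sum_const, smul_eq_mul]
      _ = d * d := by
          rw [Finset.card_sdiff_of_subset (Finset.subset_univ _), hTcard, Finset.card_univ, Fintype.card_fin]
          simp
  rw [← hsplit, ← hsum] at hbound
  omega

end Pool.Agent.Lib.MP_0d3379_co
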