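import Mathlib

namespace Pool.Agent.Lib.MP_0d3379_co

/-- `IsTotalColoring H cv ce`: the vertex colors `cv` and the edge colors `ce`, restricted to the
vertices and edges of the subgraph `H`, form a total coloring of `H` with colors in `Fin k`
(only the values on vertices and edges of `H` matter). -/
structure IsTotalColoring {V : Type} {G : SimpleGraph V} (H : G.Subgraph) {k : ℕ}
    (cv : V → Fin k) (ce : Sym2 V → Fin k) : Prop where
  /-- adjacent vertices receive distinct colors -/
  vert : ∀ u v, H.Adj u v → cv u ≠ cv v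
  /-- edges sharing an endpoint receive distinct colors -/
  edge : ∀ u v w, H.Adj u v → H.Adj u w → v ≠ w → ce s(u, v) ≠ ce s(u, w)
  /-- every edge receives a color different from the colors of both of its endpoints -/
  inc : ∀ u v, H.Adj u v → ce s(u, v) ≠ cv u ∧ ce s(u, v) ≠ cv v

/-- a total coloring of `H` in `G`: in addition, vertices of `H` adjacent in `G` have distinct
colors. -/
def IsTotalColoringIn {V : Type} (G : SimpleGraph V) (H : G.Subgraph) {k : ℕ}
    (cv : V → Fin k) (ce : Sym2 V → Fin k) : Prop :=
  IsTotalColoring H cv ce ∧ ∀ u ∈ H.verts, ∀ v ∈ H.verts, G.Adj u v → cv u ≠ cv v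

/-- the coloring `(cv, ce)` of the subgraph `H` extends to a total coloring of `G` with the same
set of colors `Fin k`. -/
def ExtendsTo {V : Type} (G : SimpleGraph V) (H : G.Subgraph) {k : ℕ}
    (cv : V → Fin k) (ce : Sym2 V → Fin k) : Prop :=
  ∃ (dv : V → Fin k) (de : Sym2 V → Fin k), IsTotalColoring (⊤ : G.Subgraph) dv de ∧
    (∀ v ∈ H.verts, dv v = cv v) ∧ (∀ e ∈ H.edgeSet, de e = ce e)

end Pool.Agent.Lib.MP_0d3379_co
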