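import Mathlib
import Pool.Agent.Lib.MP_0d3379_co.Core
import Pool.Agent.Lib.MP_0d3379_co.Defs

namespace Pool.Agent.Lib.MP_0d3379_co

/-! ### The counterexample -/

/-- vertex set of the core graph: `none` is the apex, `inl i` and `inr i` the two sides. -/
abbrev FV (d : ℕ) : Type := Option (Fin d ⊕ Fin d)

/-- Adjacency of the core graph: `K_{d,d}` minus the first `p` diagonal edges, plus an apex joined
to the `2p` endpoints of the deleted edges. -/
def fadj (d p : ℕ) : FV d → FV d → Prop
  | none, none => False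
  | none, some (Sum.inl i) => i.val < p
  | none, some (Sum.inr i) => i.val < p
  | some (Sum.inl i), none => i.val < p
  | some (Sum.inr i), none => i.val < p
  | some (Sum.inl i), some (Sum.inr j) => ok p i j
  | some (Sum.inr j), some (Sum.inl i) => ok p i j
  | some (Sum.inl _), some (Sum.inl _) => False
  | some (Sum.inr _), some (Sum.inr _) => False

theorem fadj_symm (d p : ℕ) (a b : FV d) (h : fadj d p a b) : fadj d p b a := by
  rcases a with _ | (i | i) <;> rcases b with _ | (j | j) <;> exact h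

theorem fadj_irrefl (d p : ℕ) (a : FV d) : ¬ fadj d p a a := by
  rcases a with _ | (i | i) <;> simp [fadj]

instance (d p : ℕ) (a b : FV d) : Decidable (fadj d p a b) := by
  rcases a with _ | (i | i) <;> rcases b with _ | (j | j) <;> unfold fadj <;> infer_instance

/-- The counterexample graph: the core graph with a pendant vertex attached to every vertex. The
core copy of `a` is `(a, false)` and its pendant is `(a, true)`. -/
def GG (d p : ℕ) : SimpleGraph (FV d × Bool) where
  Adj a b := (a.2 = false ∧ b.2 = false ∧ fadj d p a.1 b.1) ∨ (a.1 = b.1 ∧ a.2 ≠ b.2)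
  symm := ⟨by
    rintro a b (⟨h1, h2, h3⟩ | ⟨h1, h2⟩)
    · exact Or.inl ⟨h2, h1, fadj_symm _ _ _ _ h3⟩
    · exact Or.inr ⟨h1.symm, h2.symm⟩⟩
  loopless := ⟨by
    rintro a (⟨_, _, h3⟩ | ⟨_, h2⟩)
    · exact fadj_irrefl _ _ _ h3
    · exact h2 rfl⟩

instance (d p : ℕ) : DecidableRel (GG d p).Adj := fun a b => by
  unfold GG; infer_instance

/-- The matching: every core vertex with its pendant. -/
def HH (d p : ℕ) : (GG d p).Subgraph where
  verts := Set.univ
  Adj a b := a.1 = b.1 ∧ a.2 ≠ b.2
  adj_sub := fun h => Or.inr h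
  edge_vert := fun _ => Set.mem_univ _
  symm := ⟨fun _ _ h => ⟨h.1.symm, h.2.symm⟩⟩

theorem HH_isMatching (d p : ℕ) : (HH d p).IsMatching := by
  rintro ⟨a, s⟩ _
  refine ⟨(a, !s), ⟨rfl, by cases s <;> simp⟩, ?_⟩
  rintro ⟨b, t⟩ ⟨h1, h2⟩
  simp only at h1 h2
  subst h1
  cases s <;> cases t <;> simp_all

/-- colors of the core vertices -/
def vcol {d : ℕ} : FV d → ℕ
  | none => 3
  | some (Sum.inl _) => 2
  | some (Sum.inr _) => 4

/-- colors of the matching edges -/
def ecol {d : ℕ} : FV d → ℕ
  | none => 2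
  | some (Sum.inl _) => 3
  | some (Sum.inr _) => 5

/-- precoloring of the vertices: pendant vertices get color `0` -/
def cv (d : ℕ) (hd : 6 ≤ d) : FV d × Bool → Fin (d + 1 + 3)
  | (a, false) => ⟨vcol a, by rcases a with _ | (i | i) <;> simp [vcol] <;> omega⟩
  | (_, true) => ⟨0, by omega⟩

theorem ecol_lt {d : ℕ} (hd : 6 ≤ d) (a b : FV d) : max (ecol a) (ecol b) < d + 1 + 3 := by
  rcases a with _ | (i | i) <;> rcases b with _ | (j | j) <;> simp [ecol] <;> omega

/-- precoloring of the edges (only the values on the matching edges matter) -/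
def ce (d : ℕ) (hd : 6 ≤ d) : Sym2 (FV d × Bool) → Fin (d + 1 + 3) :=
  Sym2.lift ⟨fun a b => ⟨max (ecol a.1) (ecol b.1), ecol_lt hd _ _⟩, by
    intro a b
    simp [max_comm]⟩

theorem coloring_in (d p : ℕ) (hd : 6 ≤ d) :
    IsTotalColoringIn (GG d p) (HH d p) (cv d hd) (ce d hd) := by
  refine ⟨⟨?_, ?_, ?_⟩, ?_⟩
  · rintro ⟨a, s⟩ ⟨b, t⟩ ⟨h1, h2⟩
    simp only at h1 h2
    subst h1
    rcases a with _ | (i | i) <;> cases s <;> cases t <;> simp_all [cv, vcol]
  · rintro u v w h1 h2 h3
    exact absurd ((HH_isMatching d p (Set.mem_univ u)).unique h1 h2) h3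
  · rintro ⟨a, s⟩ ⟨b, t⟩ ⟨h1, h2⟩
    simp only at h1 h2
    subst h1
    rcases a with _ | (i | i) <;> cases s <;> cases t <;> simp_all [cv, vcol, ce, ecol]
  · rintro ⟨a, s⟩ _ ⟨b, t⟩ _ (⟨h1, h2, h3⟩ | ⟨h1, h2⟩)
    · simp only at h1 h2 h3
      subst h1 h2
      rcases a with _ | (i | i) <;> rcases b with _ | (j | j) <;> simp_all [cv, vcol, fadj]
    · simp only at h1 h2
      subst h1
      rcases a with _ | (i | i) <;> cases s <;> cases t <;> simp_all [cv, vcol]

theorem GG_adj (d p : ℕ) (a b : FV d × Bool) : (GG d p).Adj a b ↔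
    ((a.2 = false ∧ b.2 = false ∧ fadj d p a.1 b.1) ∨ (a.1 = b.1 ∧ a.2 ≠ b.2)) := Iff.rfl

/-- an injective labelling of the neighbours of a core vertex by numbers at most `d` -/
def lab (d p : ℕ) : FV d → FV d × Bool → ℕ
  | none, (none, _) => d
  | none, (some (Sum.inl i), _) => i.val
  | none, (some (Sum.inr i), _) => p + i.val
  | some (Sum.inl i), (none, _) => i.val
  | some (Sum.inl _), (some (Sum.inl _), _) => d
  | some (Sum.inl _), (some (Sum.inr j), _) => j.val
  | some (Sum.inr i), (none, _) => i.val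
  | some (Sum.inr _), (some (Sum.inr _), _) => d
  | some (Sum.inr _), (some (Sum.inl j), _) => j.val

theorem degree_le (d p : ℕ) (hp : 2 * p ≤ d) (w : FV d × Bool) : (GG d p).degree w ≤ d + 1 := by
  classical
  rw [← SimpleGraph.card_neighborFinset_eq_degree]
  obtain ⟨a, s⟩ := w
  cases s
  · have : ((GG d p).neighborFinset (a, false)).card ≤ (Finset.range (d + 1)).card := by
      apply Finset.card_le_card_of_injOn (lab d p a)
      · rintro ⟨b, t⟩ hb
        rw [Finset.mem_coe, SimpleGraph.mem_neighborFinset, GG_adj] at hb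
        simp only [Finset.coe_range, Set.mem_Iio]
        rcases a with _ | (i | i) <;> rcases b with _ | (j | j) <;> cases t <;>
          simp_all [lab, fadj] <;> omega
      · rintro ⟨b, t⟩ hb ⟨b', t'⟩ hb' heq
        rw [Finset.mem_coe, SimpleGraph.mem_neighborFinset, GG_adj] at hb hb'
        rcases a with _ | (i | i) <;> rcases b with _ | (j | j) <;> cases t <;>
          rcases b' with _ | (j' | j') <;> cases t' <;>
          first
          | (simp_all [lab, fadj, ok, Fin.ext_iff]; done)
          | (simp_all [lab, fadj, ok, Fin.ext_iff]; omega)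
          | (simp [lab, fadj, ok, Fin.ext_iff] at hb hb' heq ⊢; omega)
    simpa using this
  · have : ((GG d p).neighborFinset (a, true)) ⊆ {(a, false)} := by
      rintro ⟨b, t⟩ hb
      rw [SimpleGraph.mem_neighborFinset, GG_adj] at hb
      cases t <;> simp_all
    have := Finset.card_le_card this
    simp only [Finset.card_singleton] at this
    omega

theorem degree_eq (d p : ℕ) (i : Fin d) (hi : p ≤ i.val) :
    d + 1 ≤ (GG d p).degree (some (Sum.inl i), false) := by
  classical
  rw [← SimpleGraph.card_neighborFinset_eq_degree]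
  have : (insert ((some (Sum.inl i), true) : FV d × Bool)
      ((Finset.univ : Finset (Fin d)).image
        (fun j => ((some (Sum.inr j), false) : FV d × Bool)))).card ≤
      ((GG d p).neighborFinset (some (Sum.inl i), false)).card := by
    apply Finset.card_le_card
    intro w hw
    rw [Finset.mem_insert, Finset.mem_image] at hw
    rw [SimpleGraph.mem_neighborFinset, GG_adj]
    rcases hw with rfl | ⟨j, _, rfl⟩
    · exact Or.inr ⟨rfl, by simp⟩
    · refine Or.inl ⟨rfl, rfl, ?_⟩
      simp only [fadj, ok]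
      rintro ⟨_, h⟩
      omega
  rw [Finset.card_insert_of_notMem, Finset.card_image_of_injective, Finset.card_univ,
    Fintype.card_fin] at this
  · exact this
  · intro j j' h
    simpa using h
  · simp

theorem maxDegree_eq (d p : ℕ) (hp : 2 * p ≤ d) (hd : 6 ≤ d) : (GG d p).maxDegree = d + 1 := by
  apply le_antisymm
  · exact SimpleGraph.maxDegree_le_of_forall_degree_le _ _ (degree_le d p hp)
  · have h := degree_eq d p ⟨d - 1, by omega⟩ (by simp; omega)
    exact h.trans (SimpleGraph.degree_le_maxDegree _ _)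

/-- core vertex on the left side -/
abbrev bb {d : ℕ} (i : Fin d) : FV d × Bool := (some (Sum.inl i), false)
/-- core vertex on the right side -/
abbrev cc {d : ℕ} (i : Fin d) : FV d × Bool := (some (Sum.inr i), false)
/-- the apex -/
abbrev vv {d : ℕ} : FV d × Bool := (none, false)

theorem not_extends (d p : ℕ) (hp3 : 3 ≤ p) (hp : 2 * p ≤ d) (hd : 6 ≤ d) :
    ¬ ExtendsTo (GG d p) (HH d p) (cv d hd) (ce d hd) := by
  rintro ⟨dv, de, ⟨hvert, hedge, hinc⟩, hv, he⟩
  have hv' : ∀ w, dv w = cv d hd w := fun w => hv w (Set.mem_univ w)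
  have he' : ∀ a, de s((a, false), (a, true)) = ce d hd s((a, false), (a, true)) := by
    intro a
    apply he
    rw [SimpleGraph.Subgraph.mem_edgeSet]
    exact ⟨rfl, by simp⟩
  have adjp : ∀ a : FV d, (⊤ : (GG d p).Subgraph).Adj (a, false) (a, true) :=
    fun a => Or.inr ⟨rfl, by simp⟩
  have adjf : ∀ a b : FV d, fadj d p a b → (⊤ : (GG d p).Subgraph).Adj (a, false) (b, false) :=
    fun a b h => Or.inl ⟨rfl, rfl, h⟩
  -- an edge of the core avoids the color of its first end and the matching color there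
  have key : ∀ a b : FV d, fadj d p a b →
      (de s((a, false), (b, false))).val ≠ vcol a ∧ (de s((a, false), (b, false))).val ≠ ecol a := by
    intro a b h
    refine ⟨?_, ?_⟩
    · intro hc
      apply (hinc _ _ (adjf a b h)).1
      rw [hv']
      ext
      exact hc
    · intro hc
      apply hedge _ _ _ (adjf a b h) (adjp a) (by simp)
      rw [he']
      ext
      rw [hc]
      simp [ce]
  have key2 : ∀ a b : FV d, fadj d p a b →
      (de s((a, false), (b, false))).val ≠ vcol b ∧ (de s((a, false), (b, false))).val ≠ ecol b := by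
    intro a b h
    rw [Sym2.eq_swap]
    exact key b a (fadj_symm _ _ _ _ h)
  refine core d p hp3 (by omega) (fun i j => de s(bb i, cc j)) (fun i => de s(vv, bb i))
    (fun i => de s(vv, cc i)) ?_ ?_ ?_ ?_ ?_ ?_ ?_ ?_ ?_ ?_
  · intro i j j' h h' heq
    by_contra hne
    exact hedge _ _ _ (adjf (some (Sum.inl i)) (some (Sum.inr j)) h)
      (adjf (some (Sum.inl i)) (some (Sum.inr j')) h') (by simpa using hne) heq
  · intro i i' j h h' heq
    by_contra hne
    rw [Sym2.eq_swap, @Sym2.eq_swap _ (bb i')] at heq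
    exact hedge _ _ _ (adjf (some (Sum.inr j)) (some (Sum.inl i)) h)
      (adjf (some (Sum.inr j)) (some (Sum.inl i')) h') (by simpa using hne) heq
  · intro i j h
    have h1 := key (some (Sum.inl i)) (some (Sum.inr j)) h
    have h2 := key2 (some (Sum.inl i)) (some (Sum.inr j)) h
    exact ⟨h1.1, h1.2, h2.1, h2.2⟩
  · intro i hi
    have h1 := key none (some (Sum.inl i)) hi
    exact ⟨h1.2, h1.1⟩
  · intro i hi
    have h1 := key none (some (Sum.inr i)) hi
    exact ⟨h1.2, h1.1⟩
  · intro i j hi hj heq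
    by_contra hne
    exact hedge _ _ _ (adjf none (some (Sum.inl i)) hi)
      (adjf none (some (Sum.inl j)) hj) (by simpa using hne) heq
  · intro i j hi hj heq
    by_contra hne
    exact hedge _ _ _ (adjf none (some (Sum.inr i)) hi)
      (adjf none (some (Sum.inr j)) hj) (by simpa using hne) heq
  · intro i j hi hj
    exact hedge _ _ _ (adjf none (some (Sum.inl i)) hi)
      (adjf none (some (Sum.inr j)) hj) (by simp)
  · intro i j hi h
    rw [Sym2.eq_swap]
    exact hedge _ _ _ (adjf (some (Sum.inl i)) none hi)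
      (adjf (some (Sum.inl i)) (some (Sum.inr j)) h) (by simp)
  · intro i j hj h
    rw [Sym2.eq_swap, @Sym2.eq_swap _ (bb i)]
    exact hedge _ _ _ (adjf (some (Sum.inr j)) none hj)
      (adjf (some (Sum.inr j)) (some (Sum.inl i)) h) (by simp)

theorem main (Δ : ℕ) (hΔ : 7 ≤ Δ) :
    ∃ (V : Type) (_ : Fintype V) (_ : DecidableEq V) (G : SimpleGraph V) (_ : DecidableRel G.Adj),
      G.maxDegree = Δ ∧
      ∃ (H : G.Subgraph) (cv : V → Fin (Δ + 3)) (ce : Sym2 V → Fin (Δ + 3)),
        H.IsMatching ∧ IsTotalColoringIn G H cv ce ∧ ¬ ExtendsTo G H cv ce := by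
  obtain ⟨d, rfl⟩ : ∃ d, Δ = d + 1 := ⟨Δ - 1, by omega⟩
  have hd : 6 ≤ d := by omega
  exact ⟨FV d × Bool, inferInstance, inferInstance, GG d 3, inferInstance,
    maxDegree_eq d 3 (by omega) hd, HH d 3, cv d hd, ce d hd, HH_isMatching d 3,
    coloring_in d 3 hd, not_extends d 3 le_rfl (by omega) hd⟩

end Pool.Agent.Lib.MP_0d3379_co
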